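import Pool.Agent.Helper20.RL.St5

/-!
# Project RL, module PER (adapted from module ERR of project RG by helper74)
-/

set_option autoImplicit false

open MeasureTheory Set Filter Topology
open scoped ENNReal RealInnerProductSpace FourierTransform

namespace Pool.Agent.Helper24.RL

open Pool.Agent.Helper20.RG Pool.Agent.Helper20.RL
open Pool.Agent.Helper68.LM (Pl BB Bd Av HL ft fm DQ)

private theorem bb_int_per (g : Pl → ℝ) (hg : BB g) : Integrable g := by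
  obtain ⟨hm, K, hK, hs⟩ := hg
  have h1 : Integrable (indicator (Metric.closedBall (0 : Pl) K) fun _ => K) :=
    (integrable_indicator_iff Metric.isClosed_closedBall.measurableSet).2
      (integrableOn_const (measure_closedBall_lt_top.ne))
  refine h1.mono' hm.aestronglyMeasurable (Filter.Eventually.of_forall fun x => ?_)
  by_cases hx : x ∈ Metric.closedBall (0 : Pl) K
  · rw [indicator_of_mem hx, Real.norm_eq_abs]
    exact hK x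
  · rw [indicator_of_notMem hx, hs x (by simpa using hx), norm_zero]

private theorem bb_lin_per (a b : ℝ) (g h : Pl → ℝ) (hg : BB g) (hh : BB h) :
    BB (fun x => a * g x + b * h x) := by
  obtain ⟨hm, K, hK, hs⟩ := hg
  obtain ⟨hm', K', hK', hs'⟩ := hh
  have hK0 : 0 ≤ K := (abs_nonneg _).trans (hK 0)
  have hK0' : 0 ≤ K' := (abs_nonneg _).trans (hK' 0)
  have ha := abs_nonneg a
  have hb := abs_nonneg b
  have p1 : 0 ≤ |a| * K := by positivity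
  have p2 : 0 ≤ |b| * K' := by positivity
  refine ⟨(hm.const_mul a).add (hm'.const_mul b), |a| * K + |b| * K' + K + K', fun x => ?_,
    fun x hx => ?_⟩
  · have h1 : |a * g x| ≤ |a| * K := by
      rw [abs_mul]
      exact mul_le_mul_of_nonneg_left (hK x) ha
    have h2 : |b * h x| ≤ |b| * K' := by
      rw [abs_mul]
      exact mul_le_mul_of_nonneg_left (hK' x) hb
    have h3 := abs_add_le (a * g x) (b * h x)
    show |a * g x + b * h x| ≤ _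
    linarith
  · have h1 := hs x (by linarith)
    have h2 := hs' x (by linarith)
    simp [h1, h2]

private theorem ft_lin_per (a b : ℝ) (g h : Pl → ℝ) (hg : BB g) (hh : BB h) (ξ : Pl) :
    ft (fun x => a * g x + b * h x) ξ = (a : ℂ) * ft g ξ + (b : ℂ) * ft h ξ := by
  have key : ∀ f : Pl → ℝ, BB f → Integrable
      (fun v : Pl => Complex.exp (((-2 * Real.pi * ⟪v, ξ⟫ : ℝ) : ℂ) * Complex.I) • (f v : ℂ)) := by
    intro f hf
    refine ((bb_int_per f hf).ofReal (𝕜 := ℂ)).mono ?_ (Filter.Eventually.of_forall fun x => ?_)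
    · have hc : Continuous (fun v : Pl =>
          Complex.exp (((-2 * Real.pi * ⟪v, ξ⟫ : ℝ) : ℂ) * Complex.I)) := by
        fun_prop
      exact hc.aestronglyMeasurable.smul ((bb_int_per f hf).ofReal (𝕜 := ℂ)).aestronglyMeasurable
    · rw [norm_smul, Complex.norm_exp_ofReal_mul_I, one_mul]
      exact le_rfl
  unfold ft
  rw [Real.fourier_eq', Real.fourier_eq', Real.fourier_eq', ← integral_const_mul,
    ← integral_const_mul, ← integral_add ((key g hg).const_mul _) ((key h hh).const_mul _)]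
  refine integral_congr_ae (Filter.Eventually.of_forall fun x => ?_)
  simp only [smul_eq_mul]
  push_cast
  ring

private theorem sum_pair_per (f : ℕ → ℝ) (n : ℕ) :
    ∑ j ∈ Finset.range (2 * n), f j = ∑ p ∈ Finset.range n, (f (2 * p) + f (2 * p + 1)) := by
  induction n with
  | zero => simp
  | succ n ih =>
    rw [show 2 * (n + 1) = 2 * n + 1 + 1 by ring, Finset.sum_range_succ, Finset.sum_range_succ, ih,
      Finset.sum_range_succ]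
    ring

private theorem en_sq_per (r : ℝ) : ‖r‖ₑ ^ 2 = ENNReal.ofReal (r ^ 2) := by
  rw [Real.enorm_eq_ofReal_abs, ← ENNReal.ofReal_pow (abs_nonneg r), sq_abs]

/-- the combination of two `L^2` bounds -/
private theorem comb_per (N M : ℕ) (F : ℤ → Pl → ℝ) (S T : ℤ → ℕ → Pl → ℝ) (a b P Q : ℝ)
    (I : ℝ≥0∞) (hP : 0 ≤ P) (hQ : 0 ≤ Q)
    (hS : ∀ k, ∀ j < N, Measurable (S k j)) (hT : ∀ k, ∀ j < M, Measurable (T k j))
    (hF : ∀ k x, F k x = a * ∑ j ∈ Finset.range N, S k j x + b * ∑ j ∈ Finset.range M, T k j x)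
    (h1 : ∑' k : ℤ, ∫⁻ x, ‖∑ j ∈ Finset.range N, S k j x‖ₑ ^ 2 ≤ ENNReal.ofReal P * I)
    (h2 : ∑' k : ℤ, ∫⁻ x, ‖∑ j ∈ Finset.range M, T k j x‖ₑ ^ 2 ≤ ENNReal.ofReal Q * I) :
    ∑' k : ℤ, ∫⁻ x, ‖F k x‖ₑ ^ 2 ≤ ENNReal.ofReal (2 * a ^ 2 * P + 2 * b ^ 2 * Q) * I := by
  have mS : ∀ k, Measurable fun x => ∑ j ∈ Finset.range N, S k j x := fun k =>
    Finset.measurable_sum _ fun j hj => hS k j (Finset.mem_range.1 hj)
  have mT : ∀ k, Measurable fun x => ∑ j ∈ Finset.range M, T k j x := fun k =>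
    Finset.measurable_sum _ fun j hj => hT k j (Finset.mem_range.1 hj)
  have pt : ∀ k x, ‖F k x‖ₑ ^ 2 ≤
      ENNReal.ofReal (2 * a ^ 2) * ‖∑ j ∈ Finset.range N, S k j x‖ₑ ^ 2 +
        ENNReal.ofReal (2 * b ^ 2) * ‖∑ j ∈ Finset.range M, T k j x‖ₑ ^ 2 := by
    intro k x
    rw [en_sq_per, en_sq_per, en_sq_per, ← ENNReal.ofReal_mul (by positivity),
      ← ENNReal.ofReal_mul (by positivity), ← ENNReal.ofReal_add (by positivity) (by positivity)]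
    apply ENNReal.ofReal_le_ofReal
    rw [hF]
    nlinarith [sq_nonneg (a * ∑ j ∈ Finset.range N, S k j x - b * ∑ j ∈ Finset.range M, T k j x)]
  have step : ∀ k, ∫⁻ x, ‖F k x‖ₑ ^ 2 ≤
      ENNReal.ofReal (2 * a ^ 2) * (∫⁻ x, ‖∑ j ∈ Finset.range N, S k j x‖ₑ ^ 2) +
        ENNReal.ofReal (2 * b ^ 2) * ∫⁻ x, ‖∑ j ∈ Finset.range M, T k j x‖ₑ ^ 2 := by
    intro k
    refine (lintegral_mono (pt k)).trans ?_
    rw [lintegral_add_left (((mS k).enorm.pow_const 2).const_mul _),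
      lintegral_const_mul _ ((mS k).enorm.pow_const 2),
      lintegral_const_mul _ ((mT k).enorm.pow_const 2)]
  refine (ENNReal.tsum_le_tsum step).trans ?_
  rw [ENNReal.tsum_add, ENNReal.tsum_mul_left, ENNReal.tsum_mul_left]
  refine (add_le_add (mul_le_mul' le_rfl h1) (mul_le_mul' le_rfl h2)).trans ?_
  rw [← mul_assoc, ← mul_assoc, ← ENNReal.ofReal_mul (by positivity),
    ← ENNReal.ofReal_mul (by positivity), ← add_mul,
    ← ENNReal.ofReal_add (by positivity) (by positivity)]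

theorem hPER (hPT : StPT) (hYB : StYB) (hMM : StMM) (hSYS : StSYS) (hCHI : StCHI) (hE1 : StE1)
    (hE2 : StE2) (hPE1 : StPE1) (hPE2 : StPE2) (hL2A : StL2A) : StPER := by
  intro φ τ A σ c hG hGap hA hσ
  obtain ⟨C₁, hC₁, h1⟩ := hE1 200 (by norm_num)
  obtain ⟨C₂, hC₂, h2⟩ := hE2 200 (by norm_num)
  obtain ⟨D₁, hD₁, g1⟩ := hPE1 200 (by norm_num)
  obtain ⟨D₂, hD₂, g2⟩ := hPE2 200 (by norm_num)
  refine ⟨2 * (D₂ * C₂) + 4 * (D₁ * C₁), by positivity, ?_⟩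
  intro u W hu g hg
  obtain ⟨v, rfl⟩ : ∃ v, u = v + 1 := ⟨u - 1, by omega⟩
  have hv : 1 ≤ v := by omega
  obtain ⟨-, hs2⟩ := hSYS φ τ A σ c hG hGap hA hσ (v + 1) (by omega)
  have hs2 := hs2 hu
  obtain ⟨hs1, -⟩ := hSYS φ τ A σ c hG hGap hA hσ v hv
  simp only [Nat.add_sub_cancel] at hs2 ⊢
  have hsl : ∀ t, |τ t| ≤ 1 := hG.1
  have p2 : (0 : ℝ) < (2 : ℝ) ^ v := by positivity
  have e12 : (1 : ℝ) / (2 * (2 : ℝ) ^ v) = 1 / (2 : ℝ) ^ (v + 1) := by rw [pow_succ, mul_comm]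
  -- the first family
  have hT1 : ∀ (k : ℤ), ∀ j < 2 ^ (v + 1),
      BB (fun x => 1 * Z (τ (tm (v + 1) j)) (ce c φ (v + 1) j) (mm τ (v + 1) j) (mm τ v (j / 2))
        (1 / (2 : ℝ) ^ (v + 1)) k g x + (-1) * Z (τ (tm (v + 1) j)) (ce c φ (v + 1) j)
        (mm τ (v + 1) j) (mm τ v (j / 2)) ((2 : ℝ) ^ W) k g x) ∧
      ∀ ξ : Pl, ft (fun x => 1 * Z (τ (tm (v + 1) j)) (ce c φ (v + 1) j) (mm τ (v + 1) j)
        (mm τ v (j / 2)) (1 / (2 : ℝ) ^ (v + 1)) k g x + (-1) * Z (τ (tm (v + 1) j))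
        (ce c φ (v + 1) j) (mm τ (v + 1) j) (mm τ v (j / 2)) ((2 : ℝ) ^ W) k g x) ξ =
      (Zh (τ (tm (v + 1) j)) (ce c φ (v + 1) j) (mm τ (v + 1) j) (mm τ v (j / 2))
          (1 / (2 : ℝ) ^ (v + 1)) ((2 : ℝ) ^ k • ξ) -
        Zh (τ (tm (v + 1) j)) (ce c φ (v + 1) j) (mm τ (v + 1) j) (mm τ v (j / 2))
          ((2 : ℝ) ^ W) ((2 : ℝ) ^ k • ξ)) * ft g ξ := by
    intro k j _
    have zz : ∀ ℓ : ℝ, 0 < ℓ → BB (Z (τ (tm (v + 1) j)) (ce c φ (v + 1) j) (mm τ (v + 1) j)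
        (mm τ v (j / 2)) ℓ k g) ∧ ∀ ξ : Pl, ft (Z (τ (tm (v + 1) j)) (ce c φ (v + 1) j)
        (mm τ (v + 1) j) (mm τ v (j / 2)) ℓ k g) ξ = Zh (τ (tm (v + 1) j)) (ce c φ (v + 1) j)
        (mm τ (v + 1) j) (mm τ v (j / 2)) ℓ ((2 : ℝ) ^ k • ξ) * ft g ξ := by
      intro ℓ hℓ
      obtain ⟨b1, f1, -⟩ := hYB (τ (tm (v + 1) j)) (ce c φ (v + 1) j) (mm τ (v + 1) j) ℓ k g
        (hsl _) hℓ hg
      obtain ⟨b2, f2, -⟩ := hYB (τ (tm (v + 1) j)) (ce c φ (v + 1) j) (mm τ v (j / 2)) ℓ k g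
        (hsl _) hℓ hg
      have hz : Z (τ (tm (v + 1) j)) (ce c φ (v + 1) j) (mm τ (v + 1) j) (mm τ v (j / 2)) ℓ k g =
          fun x => 1 * Y (τ (tm (v + 1) j)) (ce c φ (v + 1) j) (mm τ (v + 1) j) ℓ k g x +
            (-1) * Y (τ (tm (v + 1) j)) (ce c φ (v + 1) j) (mm τ v (j / 2)) ℓ k g x := by
        funext x
        unfold Z
        ring
      rw [hz]
      refine ⟨bb_lin_per _ _ _ _ b1 b2, fun ξ => ?_⟩
      rw [ft_lin_per _ _ _ _ b1 b2, f1, f2]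
      unfold Zh
      push_cast
      ring
    obtain ⟨b1, f1⟩ := zz (1 / (2 : ℝ) ^ (v + 1)) (by positivity)
    obtain ⟨b2, f2⟩ := zz ((2 : ℝ) ^ W) (by positivity)
    refine ⟨bb_lin_per _ _ _ _ b1 b2, fun ξ => ?_⟩
    rw [ft_lin_per _ _ _ _ b1 b2, f1, f2]
    push_cast
    ring
  -- the second family
  have hT2 : ∀ (k : ℤ), ∀ p < 2 ^ v,
      BB (fun x => 1 * (1 / 2 * Y (τ (tm (v + 1) (2 * p))) (ce c φ (v + 1) (2 * p)) (mm τ v p)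
        (1 / (2 * (2 : ℝ) ^ v)) k g x + 1 / 2 * Y (τ (tm (v + 1) (2 * p + 1)))
        (ce c φ (v + 1) (2 * p + 1)) (mm τ v p) (1 / (2 * (2 : ℝ) ^ v)) k g x) +
        (-1) * Y (τ (tm v p)) (ce c φ v p) (mm τ v p) (1 / (2 : ℝ) ^ v) k g x) ∧
      ∀ ξ : Pl, ft (fun x => 1 * (1 / 2 * Y (τ (tm (v + 1) (2 * p))) (ce c φ (v + 1) (2 * p))
        (mm τ v p) (1 / (2 * (2 : ℝ) ^ v)) k g x + 1 / 2 * Y (τ (tm (v + 1) (2 * p + 1)))
        (ce c φ (v + 1) (2 * p + 1)) (mm τ v p) (1 / (2 * (2 : ℝ) ^ v)) k g x) +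
        (-1) * Y (τ (tm v p)) (ce c φ v p) (mm τ v p) (1 / (2 : ℝ) ^ v) k g x) ξ =
      ((Yh (τ (tm (v + 1) (2 * p))) (ce c φ (v + 1) (2 * p)) (mm τ v p) (1 / (2 * (2 : ℝ) ^ v))
          ((2 : ℝ) ^ k • ξ) + Yh (τ (tm (v + 1) (2 * p + 1))) (ce c φ (v + 1) (2 * p + 1))
          (mm τ v p) (1 / (2 * (2 : ℝ) ^ v)) ((2 : ℝ) ^ k • ξ)) / 2 -
        Yh (τ (tm v p)) (ce c φ v p) (mm τ v p) (1 / (2 : ℝ) ^ v) ((2 : ℝ) ^ k • ξ)) * ft g ξ := by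
    intro k p _
    obtain ⟨b1, f1, -⟩ := hYB (τ (tm (v + 1) (2 * p))) (ce c φ (v + 1) (2 * p)) (mm τ v p)
      (1 / (2 * (2 : ℝ) ^ v)) k g (hsl _) (by positivity) hg
    obtain ⟨b2, f2, -⟩ := hYB (τ (tm (v + 1) (2 * p + 1))) (ce c φ (v + 1) (2 * p + 1)) (mm τ v p)
      (1 / (2 * (2 : ℝ) ^ v)) k g (hsl _) (by positivity) hg
    obtain ⟨b3, f3, -⟩ := hYB (τ (tm v p)) (ce c φ v p) (mm τ v p)
      (1 / (2 : ℝ) ^ v) k g (hsl _) (by positivity) hg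
    have b4 := bb_lin_per (1 / 2) (1 / 2) _ _ b1 b2
    refine ⟨bb_lin_per 1 (-1) _ _ b4 b3, fun ξ => ?_⟩
    rw [ft_lin_per 1 (-1) _ _ b4 b3, ft_lin_per (1 / 2) (1 / 2) _ _ b1 b2, f1, f2, f3]
    push_cast
    ring
  have hW0 : (1 : ℝ) ≤ (W : ℝ) + ((v + 1 : ℕ) : ℝ) + 1 := by
    have : (0 : ℝ) ≤ (W : ℝ) := Nat.cast_nonneg _
    have : (0 : ℝ) ≤ ((v + 1 : ℕ) : ℝ) := Nat.cast_nonneg _
    linarith
  have L1 := hL2A (2 ^ (v + 1)) _ _ g (D₂ * (((v + 1 : ℕ) : ℝ) + 1) ^ 2)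
    (C₂ * ((2 : ℝ) ^ (v + 1) * ((W : ℝ) + ((v + 1 : ℕ) : ℝ) + 1))) hg (by positivity)
    (by positivity) hT1 (fun ξ hξ =>
      g2 (v + 1) _ _ _ _ _ _ _ _ hs2 W ξ hξ) (fun ξ hξ =>
      (h2 (v + 1) _ _ _ _ _ _ _ _ hs2 W ξ hξ).2)
  have hch := fun p (hp : p < 2 ^ v) => hCHI φ τ A σ c hG hGap hA hσ v p hv hp
  have E1 := h1 v (fun p => τ (tm v p)) (ce c φ v) (mm τ v) _ _ _ _
    (fun p => τ (tm (v + 1) (2 * p))) (fun p => τ (tm (v + 1) (2 * p + 1)))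
    (fun p => ce c φ (v + 1) (2 * p)) (fun p => ce c φ (v + 1) (2 * p + 1)) hs1
    (fun p hp => by
      obtain ⟨c1, c2, c3, c4, c5, c6⟩ := hch p hp
      exact ⟨hsl _, hsl _, c1, c2, c3, c4, c5, c6⟩)
  have G1 := g1 v (fun p => τ (tm v p)) (ce c φ v) (mm τ v) _ _ _ _
    (fun p => τ (tm (v + 1) (2 * p))) (fun p => τ (tm (v + 1) (2 * p + 1)))
    (fun p => ce c φ (v + 1) (2 * p)) (fun p => ce c φ (v + 1) (2 * p + 1)) hs1
    (fun p hp => by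
      obtain ⟨c1, c2, c3, c4, c5, c6⟩ := hch p hp
      exact ⟨hsl _, hsl _, c1, c2, c3, c4, c5, c6⟩)
  have L2 := hL2A (2 ^ v) _ _ g (D₁ * ((v : ℝ) + 1) ^ 2) (C₁ * (2 : ℝ) ^ v) hg (by positivity)
    (by positivity) hT2 (fun ξ hξ => G1 ξ hξ) (fun ξ hξ => (E1 ξ hξ).2)
  have hfin := comb_per (2 ^ (v + 1)) (2 ^ v) (fun k x => Sa c φ τ (v + 1) k g x - Sa c φ τ v k g x -
        (1 / (2 : ℝ) ^ (v + 1)) * ∑ j ∈ Finset.range (2 ^ (v + 1)), Z (τ (tm (v + 1) j))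
          (ce c φ (v + 1) j) (mm τ (v + 1) j) (mm τ v (j / 2)) ((2 : ℝ) ^ W) k g x) _ _
    (1 / (2 : ℝ) ^ (v + 1)) (1 / (2 : ℝ) ^ v) _ _ _ (by positivity) (by positivity)
    (fun k j hj => (hT1 k j hj).1.1) (fun k p hp => (hT2 k p hp).1.1) (fun k x => by
      show Sa c φ τ (v + 1) k g x - Sa c φ τ v k g x - _ = _
      unfold Sa
      have hp := sum_pair_per (fun j => Y (τ (tm (v + 1) j)) (ce c φ (v + 1) j) (mm τ v (j / 2))
        (1 / (2 : ℝ) ^ (v + 1)) k g x) (2 ^ v)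
      have hdiv1 : ∀ p : ℕ, 2 * p / 2 = p := fun p => by omega
      have hdiv2 : ∀ p : ℕ, (2 * p + 1) / 2 = p := fun p => by omega
      simp only [hdiv1, hdiv2] at hp
      rw [show 2 * 2 ^ v = 2 ^ (v + 1) by rw [pow_succ, mul_comm]] at hp
      simp only [e12]
      have q1 : ∑ j ∈ Finset.range (2 ^ (v + 1)),
          (1 * Z (τ (tm (v + 1) j)) (ce c φ (v + 1) j) (mm τ (v + 1) j) (mm τ v (j / 2))
            (1 / (2 : ℝ) ^ (v + 1)) k g x + (-1) * Z (τ (tm (v + 1) j)) (ce c φ (v + 1) j)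
            (mm τ (v + 1) j) (mm τ v (j / 2)) ((2 : ℝ) ^ W) k g x) =
          ∑ j ∈ Finset.range (2 ^ (v + 1)), Y (τ (tm (v + 1) j)) (ce c φ (v + 1) j)
            (mm τ (v + 1) j) (1 / (2 : ℝ) ^ (v + 1)) k g x -
          ∑ j ∈ Finset.range (2 ^ (v + 1)), Y (τ (tm (v + 1) j)) (ce c φ (v + 1) j)
            (mm τ v (j / 2)) (1 / (2 : ℝ) ^ (v + 1)) k g x -
          ∑ j ∈ Finset.range (2 ^ (v + 1)), Z (τ (tm (v + 1) j)) (ce c φ (v + 1) j)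
            (mm τ (v + 1) j) (mm τ v (j / 2)) ((2 : ℝ) ^ W) k g x := by
        rw [← Finset.sum_sub_distrib, ← Finset.sum_sub_distrib]
        refine Finset.sum_congr rfl fun j _ => ?_
        unfold Z
        ring
      have q2 : ∑ p ∈ Finset.range (2 ^ v),
          (1 * (1 / 2 * Y (τ (tm (v + 1) (2 * p))) (ce c φ (v + 1) (2 * p)) (mm τ v p)
            (1 / (2 : ℝ) ^ (v + 1)) k g x + 1 / 2 * Y (τ (tm (v + 1) (2 * p + 1)))
            (ce c φ (v + 1) (2 * p + 1)) (mm τ v p) (1 / (2 : ℝ) ^ (v + 1)) k g x) +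
            (-1) * Y (τ (tm v p)) (ce c φ v p) (mm τ v p) (1 / (2 : ℝ) ^ v) k g x) =
          1 / 2 * ∑ p ∈ Finset.range (2 ^ v), (Y (τ (tm (v + 1) (2 * p)))
            (ce c φ (v + 1) (2 * p)) (mm τ v p) (1 / (2 : ℝ) ^ (v + 1)) k g x +
            Y (τ (tm (v + 1) (2 * p + 1))) (ce c φ (v + 1) (2 * p + 1)) (mm τ v p)
            (1 / (2 : ℝ) ^ (v + 1)) k g x) -
          ∑ p ∈ Finset.range (2 ^ v), Y (τ (tm v p)) (ce c φ v p) (mm τ v p)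
            (1 / (2 : ℝ) ^ v) k g x := by
        rw [Finset.mul_sum, ← Finset.sum_sub_distrib]
        refine Finset.sum_congr rfl fun p _ => ?_
        ring
      rw [q1, q2, ← hp]
      rw [pow_succ (2 : ℝ) v]
      field_simp
      ring) L1 L2
  refine hfin.trans (mul_le_mul' (ENNReal.ofReal_le_ofReal ?_) le_rfl)
  have hr : (2 : ℝ) ^ (-((v + 1 : ℕ) : ℝ)) = 1 / (2 : ℝ) ^ (v + 1) := by
    rw [Real.rpow_neg (by norm_num), Real.rpow_natCast, one_div]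
  rw [hr]
  have hP : (0 : ℝ) < (2 : ℝ) ^ (v + 1) := by positivity
  have t1 : 2 * (1 / (2 : ℝ) ^ (v + 1)) ^ 2 * (D₂ * (((v + 1 : ℕ) : ℝ) + 1) ^ 2 *
      (C₂ * ((2 : ℝ) ^ (v + 1) * ((W : ℝ) + ((v + 1 : ℕ) : ℝ) + 1)))) =
      2 * (D₂ * C₂) * (1 / (2 : ℝ) ^ (v + 1)) * (((v + 1 : ℕ) : ℝ) + 1) ^ 2 *
        ((W : ℝ) + ((v + 1 : ℕ) : ℝ) + 1) := by
    field_simp
  have t2 : 2 * (1 / (2 : ℝ) ^ v) ^ 2 * (D₁ * ((v : ℝ) + 1) ^ 2 * (C₁ * (2 : ℝ) ^ v)) =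
      4 * (D₁ * C₁) * (1 / (2 : ℝ) ^ (v + 1)) * ((v : ℝ) + 1) ^ 2 := by
    rw [pow_succ (2 : ℝ) v]
    field_simp
    ring
  rw [t1, t2]
  have t3 : ((v : ℝ) + 1) ^ 2 ≤ (((v + 1 : ℕ) : ℝ) + 1) ^ 2 := by
    push_cast
    have : (0 : ℝ) ≤ (v : ℝ) := Nat.cast_nonneg _
    nlinarith
  have t4 : 4 * (D₁ * C₁) * (1 / (2 : ℝ) ^ (v + 1)) * ((v : ℝ) + 1) ^ 2 ≤
      4 * (D₁ * C₁) * (1 / (2 : ℝ) ^ (v + 1)) * (((v + 1 : ℕ) : ℝ) + 1) ^ 2 :=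
    mul_le_mul_of_nonneg_left t3 (by positivity)
  have t5 : 4 * (D₁ * C₁) * (1 / (2 : ℝ) ^ (v + 1)) * (((v + 1 : ℕ) : ℝ) + 1) ^ 2 ≤
      4 * (D₁ * C₁) * (1 / (2 : ℝ) ^ (v + 1)) * (((v + 1 : ℕ) : ℝ) + 1) ^ 2 *
        ((W : ℝ) + ((v + 1 : ℕ) : ℝ) + 1) :=
    le_mul_of_one_le_right (by positivity) hW0
  have t6 : (2 * (D₂ * C₂) + 4 * (D₁ * C₁)) * (1 / (2 : ℝ) ^ (v + 1)) *
      (((v + 1 : ℕ) : ℝ) + 1) ^ 2 * ((W : ℝ) + ((v + 1 : ℕ) : ℝ) + 1) =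
      2 * (D₂ * C₂) * (1 / (2 : ℝ) ^ (v + 1)) * (((v + 1 : ℕ) : ℝ) + 1) ^ 2 *
        ((W : ℝ) + ((v + 1 : ℕ) : ℝ) + 1) +
      4 * (D₁ * C₁) * (1 / (2 : ℝ) ^ (v + 1)) * (((v + 1 : ℕ) : ℝ) + 1) ^ 2 *
        ((W : ℝ) + ((v + 1 : ℕ) : ℝ) + 1) := by ring
  rw [t6]
  linarith

end Pool.Agent.Helper24.RL
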